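import Pool.Agent.H48.THU.Thu
import Pool.Agent.H14.BL.FTL

/-!
# KST: codegrees (Kővári, Sós and Turán, with the equation `r u ^ h - s w ^ h = m`)
-/

set_option autoImplicit false

namespace Pool.KST

open Finset Pool.Agent.H98.ABCR Pool.SHA Pool.RIC.H71R Pool.BL

/-- KST: `coord v i = r W ^ h`, `W` = product of the layers with exponents in `E`, all divisible by
`h`; `K` = layers of the modulus.  `V` = gain of the energy of the coordinate `j`. -/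
def S_KST : Prop := ∀ (J S : ℕ) (κ ε : ℝ), 1 ≤ κ → 0 < ε → ∃ C : ℝ, 1 ≤ C ∧
  ∀ (X τ g V : ℝ) (F : Finset (ℕ × ℕ)) (i j k : Fin 3) (K E : Finset ℕ) (h : ℕ)
    (p : Fin 3 → ℕ → ℝ),
  1 ≤ X → 0 ≤ τ → 0 ≤ g → i ≠ j → i ≠ k → j ≠ k → E ⊆ Icc 1 J → K ⊆ Icc 1 J \ E →
  h ∈ Icc 2 J → (∀ e ∈ E, h ∣ e) → (∀ l e, 0 ≤ p l e ∧ p l e ≤ 2) → VB J S (p j) g V →
  (∀ v ∈ F, IsTri v ∧ hh v ≤ κ * Real.log X ∧ (∀ l, Prof J X τ (p l) (coord v l)) ∧
    X ^ g ≤ (kp J K (coord v i) : ℝ)) →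
  (F.card : ℝ) ≤ C * X ^ (ε + 4 * τ + max (∑ e ∈ K, p i e + ∑ e ∈ Icc 1 J, p k e)
    (∑ e ∈ Icc 1 J \ E, p i e + (∑ e ∈ Icc 1 J, p j e - V / 2) + (∑ e ∈ Icc 1 J, p k e) / 2))

theorem rad_le_dvd {a b : ℕ} (hb : b ≠ 0) (h : a ∣ b) : rad a ≤ rad b := by
  unfold rad
  refine Finset.prod_le_prod_of_subset_of_one_le' (Nat.primeFactors_mono h hb) ?_
  intro p hp _
  exact (Nat.prime_of_mem_primeFactors hp).one_le

/-- signs -/
theorem sgn3 (i j k : Fin 3) (hij : i ≠ j) (hik : i ≠ k) (hjk : j ≠ k) :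
    ∃ α β : ℤ, (α = 1 ∨ α = -1) ∧ (β = 1 ∨ β = -1) ∧
    (∀ v : ℕ × ℕ, (coord v i : ℤ) = α * coord v j + β * coord v k) ∧
    ∀ v v' : ℕ × ℕ, coord v j = coord v' j → coord v k = coord v' k → v = v' := by
  have hall : ∀ i j k : Fin 3, i ≠ j → i ≠ k → j ≠ k →
      (j = i + 1 ∧ k = i + 2) ∨ (j = i + 2 ∧ k = i + 1) := by decide
  obtain ⟨α, β, hα, hβ, hco⟩ := FTL14.sgn2 i
  obtain ⟨-, -, -, hinj⟩ := sgn i
  rcases hall i j k hij hik hjk with ⟨rfl, rfl⟩ | ⟨rfl, rfl⟩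
  · exact ⟨α, β, hα, hβ, hco, hinj⟩
  · exact ⟨β, α, hβ, hα, fun v => by rw [hco v]; ring, fun v v' h1 h2 => hinj v v' h2 h1⟩

/-- Cauchy-Schwarz and codegrees: `f ^ 2 ≤ |B| (f + P D)` -/
theorem graph (F : Finset (ℕ × ℕ)) (y z : ℕ × ℕ → ℕ)
    (hinj : ∀ v ∈ F, ∀ v' ∈ F, y v = y v' → z v = z v' → v = v') (P : Finset (ℕ × ℕ)) (D : ℝ)
    (hP : ∀ v ∈ F, ∀ v' ∈ F, z v = z v' → v ≠ v' → (y v, y v') ∈ P)
    (hD : ∀ w ∈ P, w.1 ≠ w.2 →
      (((F ×ˢ F).filter (fun x => z x.1 = z x.2 ∧ y x.1 = w.1 ∧ y x.2 = w.2)).card : ℝ) ≤ D)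
    (hD0 : 0 ≤ D) :
    (F.card : ℝ) ^ 2 ≤ ((F.image z).card : ℝ) * (F.card + P.card * D) := by
  classical
  have hcs : (F.card : ℝ) ^ 2 ≤
      (((F ×ˢ F).filter (fun x => (z x.1 : ℤ) = (z x.2 : ℤ))).card : ℝ) *
        ((F.image z).card : ℝ) := by
    have h := FTL14.cs2 F (F.image z) (fun v => (z v : ℤ)) (fun n : ℕ => (n : ℤ))
    have h1 : F.card ≤ ((F ×ˢ F.image z).filter
        (fun x : (ℕ × ℕ) × ℕ => (z x.1 : ℤ) = ((x.2 : ℕ) : ℤ))).card := by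
      refine Finset.card_le_card_of_injOn (fun v => (v, z v)) ?_ ?_
      · intro v hv
        refine Finset.mem_coe.2 ?_
        simp only [mem_filter, mem_product]
        exact ⟨⟨Finset.mem_coe.1 hv, mem_image_of_mem _ (Finset.mem_coe.1 hv)⟩, trivial⟩
      · intro v _ v' _ h
        exact (Prod.mk.inj h).1
    have h2 : ((F.image z ×ˢ F.image z).filter
        (fun x : ℕ × ℕ => ((x.1 : ℕ) : ℤ) = ((x.2 : ℕ) : ℤ))).card ≤ (F.image z).card := by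
      refine Finset.card_le_card_of_injOn (fun x => x.1) ?_ ?_
      · intro x hx
        have hx' := Finset.mem_coe.1 hx
        simp only [mem_filter, mem_product] at hx'
        exact Finset.mem_coe.2 hx'.1.1
      · intro x hx x' hx' h
        have h3 := Finset.mem_coe.1 hx
        have h4 := Finset.mem_coe.1 hx'
        simp only [mem_filter, mem_product] at h3 h4
        have h5 : x.1 = x.2 := by exact_mod_cast h3.2
        have h6 : x'.1 = x'.2 := by exact_mod_cast h4.2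
        have h7 : x.1 = x'.1 := h
        exact Prod.ext h7 (by rw [← h5, ← h6, h7])
    have h1' : (F.card : ℝ) ≤ (((F ×ˢ F.image z).filter
        (fun x : (ℕ × ℕ) × ℕ => (z x.1 : ℤ) = ((x.2 : ℕ) : ℤ))).card : ℝ) := by
      exact_mod_cast h1
    have h2' : (((F.image z ×ˢ F.image z).filter
        (fun x : ℕ × ℕ => ((x.1 : ℕ) : ℤ) = ((x.2 : ℕ) : ℤ))).card : ℝ) ≤ (F.image z).card := by
      exact_mod_cast h2
    calc (F.card : ℝ) ^ 2 ≤ (((F ×ˢ F.image z).filter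
        (fun x : (ℕ × ℕ) × ℕ => (z x.1 : ℤ) = ((x.2 : ℕ) : ℤ))).card : ℝ) ^ 2 :=
          pow_le_pow_left₀ (Nat.cast_nonneg _) h1' 2
      _ ≤ _ := h
      _ ≤ _ := mul_le_mul_of_nonneg_left h2' (Nat.cast_nonneg _)
  -- the two parts
  set Q : Finset ((ℕ × ℕ) × (ℕ × ℕ)) := (F ×ˢ F).filter (fun x => (z x.1 : ℤ) = (z x.2 : ℤ)) with hQ
  have hQ1 : Q.card ≤ F.card + (Q.filter (fun x => x.1 ≠ x.2)).card := by
    have h1 : (Q.filter (fun x => x.1 = x.2)).card + (Q.filter (fun x => x.1 ≠ x.2)).card =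
        Q.card := Finset.card_filter_add_card_filter_not (s := Q) (fun x => x.1 = x.2)
    have h2 : (Q.filter (fun x => x.1 = x.2)).card ≤ F.card := by
      refine Finset.card_le_card_of_injOn (fun x => x.1) ?_ ?_
      · intro x hx
        have hx' := Finset.mem_coe.1 hx
        simp only [hQ, mem_filter, mem_product] at hx'
        exact Finset.mem_coe.2 hx'.1.1.1
      · intro x hx x' hx' h
        have h3 := (Finset.mem_filter.mp (Finset.mem_coe.1 hx)).2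
        have h4 := (Finset.mem_filter.mp (Finset.mem_coe.1 hx')).2
        have h7 : x.1 = x'.1 := h
        exact Prod.ext h7 (by rw [← h3, ← h4, h7])
    omega
  have hQ2 : ((Q.filter (fun x => x.1 ≠ x.2)).card : ℝ) ≤ P.card * D := by
    have hmaps : Set.MapsTo (fun x : (ℕ × ℕ) × (ℕ × ℕ) => (y x.1, y x.2))
        ((Q.filter (fun x => x.1 ≠ x.2) : Finset _) : Set _) (P : Set (ℕ × ℕ)) := by
      intro x hx
      have hx' := Finset.mem_coe.1 hx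
      simp only [hQ, mem_filter, mem_product] at hx'
      obtain ⟨⟨⟨h1, h2⟩, h3⟩, h4⟩ := hx'
      exact Finset.mem_coe.2 (hP _ h1 _ h2 (by exact_mod_cast h3) h4)
    rw [Finset.card_eq_sum_card_fiberwise hmaps]
    push_cast
    calc ∑ w ∈ P, (((Q.filter (fun x => x.1 ≠ x.2)).filter (fun x => (y x.1, y x.2) = w)).card : ℝ)
        ≤ ∑ _w ∈ P, D := by
          refine Finset.sum_le_sum fun w hw => ?_
          by_cases hne : w.1 = w.2
          · have h0 : ((Q.filter (fun x => x.1 ≠ x.2)).filter (fun x => (y x.1, y x.2) = w)) = ∅ := by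
              refine Finset.eq_empty_of_forall_notMem fun x hx => ?_
              simp only [hQ, mem_filter, mem_product] at hx
              obtain ⟨⟨⟨⟨h1, h2⟩, h3⟩, h4⟩, h5⟩ := hx
              refine h4 (hinj _ h1 _ h2 ?_ (by exact_mod_cast h3))
              rw [← h5] at hne
              exact hne
            rw [h0, Finset.card_empty, Nat.cast_zero]
            exact hD0
          · refine le_trans ?_ (hD w hw hne)
            have h1 : ((Q.filter (fun x => x.1 ≠ x.2)).filter (fun x => (y x.1, y x.2) = w)) ⊆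
                ((F ×ˢ F).filter (fun x => z x.1 = z x.2 ∧ y x.1 = w.1 ∧ y x.2 = w.2)) := by
              intro x hx
              simp only [hQ, mem_filter, mem_product] at hx
              obtain ⟨⟨⟨⟨h1, h2⟩, h3⟩, h4⟩, h5⟩ := hx
              simp only [mem_filter, mem_product]
              refine ⟨⟨h1, h2⟩, by exact_mod_cast h3, ?_, ?_⟩
              · rw [← h5]
              · rw [← h5]
            exact_mod_cast Finset.card_le_card h1
      _ = _ := by rw [Finset.sum_const, nsmul_eq_mul]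
  have hQ3 : (Q.card : ℝ) ≤ F.card + P.card * D := by
    have h1 : (Q.card : ℝ) ≤ (F.card : ℝ) + ((Q.filter (fun x => x.1 ≠ x.2)).card : ℝ) := by
      exact_mod_cast hQ1
    linarith
  calc (F.card : ℝ) ^ 2 ≤ (Q.card : ℝ) * ((F.image z).card : ℝ) := hcs
    _ ≤ (F.card + P.card * D) * ((F.image z).card : ℝ) :=
        mul_le_mul_of_nonneg_right hQ3 (Nat.cast_nonneg _)
    _ = _ := by ring

/-- `f ^ 2 ≤ B (f + P D)` gives `f ≤ B + √(B P D)` -/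
theorem quad {f b B PD S : ℝ} (h : f ^ 2 ≤ b * (f + PD)) (hb : b ≤ B) (hPD : 0 ≤ PD)
    (hB : 0 ≤ B) (hS : 0 ≤ S) (hSq : B * PD ≤ S ^ 2) : f ≤ B + S := by
  by_contra hlt
  push Not at hlt
  have h1 : f ^ 2 ≤ B * (f + PD) := h.trans (mul_le_mul_of_nonneg_right hb (by linarith))
  have h2 : f * (f - B) ≤ S ^ 2 := by nlinarith
  have h3 : (B + S) * S < f * (f - B) := by
    have h4 : S < f - B := by linarith
    nlinarith
  nlinarith

/-- the three factors of `n` -/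
theorem decomp {J : ℕ} (hL : S_LAY) {n : ℕ} (hn : 0 < n) {K E : Finset ℕ} {h : ℕ}
    (hE : E ⊆ Icc 1 J) (hK : K ⊆ Icc 1 J \ E) (hh : ∀ e ∈ E, h ∣ e) :
    n = kp J K n * (∏ e ∈ (Icc 1 J \ E) \ K, lay n e ^ e) * (∏ e ∈ E, lay n e ^ (e / h)) ^ h ∧
    0 < ∏ e ∈ (Icc 1 J \ E) \ K, lay n e ^ e ∧ 0 < ∏ e ∈ E, lay n e ^ (e / h) ∧
    (∏ e ∈ (Icc 1 J \ E) \ K, lay n e ^ e) ∣ kp J ((Icc 1 J \ E) \ K) n := by
  obtain ⟨h1, -, -, h4, h5⟩ := hL J n hn
  have hpw : (∏ e ∈ E, lay n e ^ (e / h)) ^ h = ∏ e ∈ E, lay n e ^ e := by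
    rw [← Finset.prod_pow]
    refine Finset.prod_congr rfl fun e he => ?_
    rw [← pow_mul, Nat.div_mul_cancel (hh e he)]
  refine ⟨?_, Finset.prod_pos fun e _ => pow_pos (h5 e).1 _,
    Finset.prod_pos fun e _ => pow_pos (h5 e).1 _, Dvd.intro_left _ rfl⟩
  rw [hpw]
  conv_lhs => rw [← h1]
  unfold kp
  rw [← Finset.prod_sdiff hE, ← Finset.prod_sdiff hK]
  ring

/-- one modulus -/
theorem fibq {J S h : ℕ} {κ ε1 ε3 ε4 C1 C3 C4 : ℝ} (hκ : 0 < κ) (hC1 : 1 ≤ C1) (hC3 : 1 ≤ C3)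
    (hC4 : 1 ≤ C4) (hε3 : 0 ≤ ε3) (hL : S_LAY)
    (hT : ∀ (X Y : ℝ) (T : Finset ℕ), 1 ≤ X → 1 ≤ Y →
      (∀ n ∈ T, 0 < n ∧ (n : ℝ) ≤ X ^ κ ∧ (rad n : ℝ) ≤ Y) → (T.card : ℝ) ≤ C1 * X ^ ε1 * Y)
    (hTh : ∀ (H r s : ℕ) (m : ℤ), 1 ≤ H → 0 < r → r ≤ H → 0 < s → s ≤ H → m ≠ 0 →
      (((Icc 1 H ×ˢ Icc 1 H).filter
        (fun z : ℕ × ℕ => (r : ℤ) * (z.1 : ℤ) ^ h - s * (z.2 : ℤ) ^ h = m)).card : ℝ) ≤
      C3 * (H : ℝ) ^ (ε3 / κ))
    (hEn : ∀ (X τ g V : ℝ) (q : ℕ) (P : Finset ℕ) (p : ℕ → ℝ), 1 ≤ X → 0 ≤ τ → 0 ≤ g →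
      (∀ e, 0 ≤ p e ∧ p e ≤ 2) → VB J S p g V → X ^ g ≤ q → (q : ℝ) ≤ X ^ κ →
      (∀ n ∈ P, 0 < n ∧ n.Coprime q ∧ (n : ℝ) ≤ X ^ κ ∧ Prof J X τ p n) →
      (((P ×ˢ P).filter (fun z => z.1 ≡ z.2 [MOD q])).card : ℝ) ≤
        C4 * X ^ (ε4 + 2 * τ + 2 * (∑ e ∈ Icc 1 J, p e) - V))
    {X τ g V : ℝ} (hX : 1 ≤ X) (hτ : 0 ≤ τ) (hg : 0 ≤ g) (i j k : Fin 3) (hij : i ≠ j)
    (hik : i ≠ k) (hjk : j ≠ k) (q : ℕ) (K E : Finset ℕ) (hE : E ⊆ Icc 1 J)
    (hK : K ⊆ Icc 1 J \ E) (hhE : ∀ e ∈ E, h ∣ e)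
    (p : Fin 3 → ℕ → ℝ) (hp : ∀ l e, 0 ≤ p l e ∧ p l e ≤ 2) (hV : VB J S (p j) g V)
    (hq : 0 < q) (hq1 : X ^ g ≤ q) (hq2 : (q : ℝ) ≤ X ^ κ) (hh1 : 1 ≤ h)
    (F : Finset (ℕ × ℕ)) (hF : ∀ v ∈ F, IsTri v ∧ hh v ≤ κ * Real.log X ∧
      (∀ l, Prof J X τ (p l) (coord v l)) ∧ kp J K (coord v i) = q) :
    (F.card : ℝ) ≤ C1 * X ^ (ε1 + τ + ∑ e ∈ Icc 1 J, p k e) +
      C1 * C1 * C3 * C4 * X ^ ((ε1 + τ + ∑ e ∈ Icc 1 J, p k e + (ε4 + 2 * τ +
        2 * (∑ e ∈ Icc 1 J, p j e) - V) + (2 * (ε1 + τ + ∑ e ∈ (Icc 1 J \ E) \ K, p i e) + ε3)) / 2) := by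
  classical
  have hX0 : (0 : ℝ) < X := by linarith
  obtain ⟨α, β, hα, hβ, hco, hinj⟩ := sgn3 i j k hij hik hjk
  have hβ0 : β ≠ 0 := by rcases hβ with h | h <;> simp [h]
  have hα0 : α ≠ 0 := by rcases hα with h | h <;> simp [h]
  -- decomposition of the coordinate `i`
  obtain ⟨r1, hr1⟩ : ∃ r1 : ℕ → ℕ, r1 = fun n => ∏ e ∈ (Icc 1 J \ E) \ K, lay n e ^ e := ⟨_, rfl⟩
  obtain ⟨W, hW⟩ : ∃ W : ℕ → ℕ, W = fun n => ∏ e ∈ E, lay n e ^ (e / h) := ⟨_, rfl⟩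
  have hdec : ∀ v ∈ F, coord v i = q * r1 (coord v i) * W (coord v i) ^ h ∧
      0 < r1 (coord v i) ∧ 0 < W (coord v i) ∧
      r1 (coord v i) ∣ kp J ((Icc 1 J \ E) \ K) (coord v i) := by
    intro v hv
    obtain ⟨T1, -, -, D1⟩ := hF v hv
    obtain ⟨d1, d2, d3, d4⟩ := decomp (J := J) hL (coord_pos T1 i) hE hK hhE
    rw [D1] at d1
    rw [hr1, hW]
    exact ⟨d1, d2, d3, d4⟩
  have hsz : ∀ v ∈ F, ∀ l, (coord v l : ℝ) ≤ X ^ κ := fun v hv l =>
    CTL71.size hX (hF v hv).1 (hF v hv).2.1 l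
  -- the height bound `H`
  obtain ⟨H, hH⟩ : ∃ H, H = ⌊X ^ κ⌋₊ := ⟨_, rfl⟩
  have hHX : (H : ℝ) ≤ X ^ κ := by rw [hH]; exact Nat.floor_le (by positivity)
  have hH1 : 1 ≤ H := by
    rw [hH]; exact Nat.le_floor (by push_cast; exact Real.one_le_rpow hX hκ.le)
  have hle : ∀ v ∈ F, coord v i ≤ H := fun v hv => by
    rw [hH]; exact Nat.le_floor (hsz v hv i)
  -- the cofactors
  obtain ⟨A, hA⟩ : ∃ A : Finset ℕ, A = F.image (fun v => r1 (coord v i)) := ⟨_, rfl⟩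
  have hAc : (A.card : ℝ) ≤ C1 * X ^ ε1 * X ^ (τ + ∑ e ∈ (Icc 1 J \ E) \ K, p i e) := by
    refine hT X _ A hX (Real.one_le_rpow hX ?_) ?_
    · exact add_nonneg hτ (Finset.sum_nonneg fun e _ => (hp i e).1)
    intro n hn
    rw [hA] at hn
    obtain ⟨v, hv, rfl⟩ := Finset.mem_image.mp hn
    obtain ⟨T1, Hh, Pr, D1⟩ := hF v hv
    obtain ⟨d1, d2, d3, d4⟩ := hdec v hv
    have hpos := coord_pos T1 i
    obtain ⟨-, -, -, hd, -⟩ := hL J (coord v i) hpos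
    have hKs : (Icc 1 J \ E) \ K ⊆ Icc 1 J := fun e he => (mem_sdiff.mp (mem_sdiff.mp he).1).1
    obtain ⟨hd1, hd2⟩ := hd _ hKs
    have hkpos : 0 < kp J ((Icc 1 J \ E) \ K) (coord v i) := Nat.pos_of_dvd_of_pos hd1 hpos
    refine ⟨d2, ?_, ?_⟩
    · have h1 : r1 (coord v i) ≤ coord v i := Nat.le_of_dvd hpos (d4.trans hd1)
      exact le_trans (by exact_mod_cast h1) (hsz v hv i)
    · have h1 : rad (r1 (coord v i)) ≤ rad (kp J ((Icc 1 J \ E) \ K) (coord v i)) :=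
        rad_le_dvd hkpos.ne' d4
      have h1' : ((rad (r1 (coord v i)) : ℕ) : ℝ) ≤
          ((rad (kp J ((Icc 1 J \ E) \ K) (coord v i)) : ℕ) : ℝ) := by exact_mod_cast h1
      refine h1'.trans ?_
      rw [hd2, Nat.cast_mul, Nat.cast_prod, Real.rpow_add hX0, Real.rpow_sum_of_pos hX0]
      refine mul_le_mul (Pr i).1 ?_ (Finset.prod_nonneg fun e _ => Nat.cast_nonneg _) (by positivity)
      exact Finset.prod_le_prod (fun e _ => Nat.cast_nonneg _) fun e he => (Pr i).2 e (hKs he)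
  -- the values of the coordinate `k`
  have hBc : ((F.image (fun v => coord v k)).card : ℝ) ≤
      C1 * X ^ (ε1 + τ + ∑ e ∈ Icc 1 J, p k e) := by
    have h0 : ((F.image (fun v => coord v k)).card : ℝ) ≤
        C1 * X ^ ε1 * X ^ (τ + ∑ e ∈ Icc 1 J, p k e) := by
      refine hT X _ _ hX (Real.one_le_rpow hX ?_) ?_
      · exact add_nonneg hτ (Finset.sum_nonneg fun e _ => (hp k e).1)
      intro n hn
      obtain ⟨v, hv, rfl⟩ := Finset.mem_image.mp hn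
      obtain ⟨T1, Hh, Pr, -⟩ := hF v hv
      have hpos := coord_pos T1 k
      refine ⟨hpos, hsz v hv k, ?_⟩
      obtain ⟨-, -, h3, -⟩ := hL J (coord v k) hpos
      rw [h3, Nat.cast_mul, Nat.cast_prod, Real.rpow_add hX0, Real.rpow_sum_of_pos hX0]
      refine mul_le_mul (Pr k).1 ?_ (Finset.prod_nonneg fun e _ => Nat.cast_nonneg _) (by positivity)
      exact Finset.prod_le_prod (fun e _ => Nat.cast_nonneg _) fun e he => (Pr k).2 e he
    refine h0.trans (le_of_eq ?_)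
    rw [mul_assoc, ← Real.rpow_add hX0, add_assoc]
  -- the pairs congruent modulo `q`
  obtain ⟨Yy, hYy⟩ : ∃ Yy : Finset ℕ, Yy = F.image (fun v => coord v j) := ⟨_, rfl⟩
  obtain ⟨P, hP⟩ : ∃ P : Finset (ℕ × ℕ), P = (Yy ×ˢ Yy).filter (fun z => z.1 ≡ z.2 [MOD q]) :=
    ⟨_, rfl⟩
  have hqd : ∀ v ∈ F, q ∣ coord v i := fun v hv => by
    obtain ⟨d1, -⟩ := hdec v hv
    rw [d1, mul_assoc]
    exact Dvd.intro _ rfl
  have hPc : (P.card : ℝ) ≤ C4 * X ^ (ε4 + 2 * τ + 2 * (∑ e ∈ Icc 1 J, p j e) - V) := by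
    rw [hP]
    refine hEn X τ g V q Yy (p j) hX hτ hg (hp j) hV hq1 hq2 ?_
    intro n hn
    rw [hYy] at hn
    obtain ⟨v, hv, rfl⟩ := Finset.mem_image.mp hn
    obtain ⟨T1, Hh, Pr, -⟩ := hF v hv
    have hcop : (coord v j).Coprime (coord v i) := by
      have hall : ∀ i j k : Fin 3, i ≠ j → i ≠ k → j ≠ k →
        (j = i + 1 ∧ k = i + 2) ∨ (j = i + 2 ∧ k = i + 1) := by decide
      rcases hall i j k hij hik hjk with ⟨rfl, rfl⟩ | ⟨rfl, rfl⟩
      · exact (cop T1 i).1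
      · exact (cop T1 i).2
    exact ⟨coord_pos T1 j, hcop.coprime_dvd_right (hqd v hv), hsz v hv j, Pr j⟩
  -- codegrees
  obtain ⟨D, hD⟩ : ∃ D : ℝ, D = (A.card : ℝ) * A.card * (C3 * X ^ ε3) := ⟨_, rfl⟩
  have hD0 : 0 ≤ D := by rw [hD]; positivity
  have hgr := graph F (fun v => coord v j) (fun v => coord v k)
    (fun v _ v' _ h1 h2 => hinj v v' h1 h2) P D ?_ ?_ hD0
  rotate_left
  · -- congruence
    intro v hv v' hv' h1 _
    rw [hP, mem_filter, mem_product]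
    refine ⟨⟨?_, ?_⟩, ?_⟩
    · rw [hYy]; exact mem_image_of_mem _ hv
    · rw [hYy]; exact mem_image_of_mem _ hv'
    · have e1 := hco v
      have e2 := hco v'
      have e3 : (coord v k : ℤ) = coord v' k := by exact_mod_cast h1
      have e4 : α * ((coord v' j : ℤ) - coord v j) = coord v' i - coord v i := by
        rw [e1, e2, e3]; ring
      have e5 : (q : ℤ) ∣ α * ((coord v' j : ℤ) - coord v j) := by
        rw [e4]
        exact dvd_sub (by exact_mod_cast hqd v' hv') (by exact_mod_cast hqd v hv)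
      have e6 : (q : ℤ) ∣ (coord v' j : ℤ) - coord v j := by
        rcases hα with h | h
        · rwa [h, one_mul] at e5
        · rw [h, neg_one_mul] at e5
          exact (dvd_neg).mp e5
      exact Nat.modEq_iff_dvd.mpr e6
  · -- codegree
    intro w hw hne
    obtain ⟨Q, hQ⟩ : ∃ Q, Q = (F ×ˢ F).filter (fun x : (ℕ × ℕ) × (ℕ × ℕ) =>
      coord x.1 k = coord x.2 k ∧ coord x.1 j = w.1 ∧ coord x.2 j = w.2) := ⟨_, rfl⟩
    show ((((F ×ˢ F).filter (fun x : (ℕ × ℕ) × (ℕ × ℕ) =>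
      coord x.1 k = coord x.2 k ∧ coord x.1 j = w.1 ∧ coord x.2 j = w.2)).card : ℕ) : ℝ) ≤ D
    rw [← hQ]
    obtain ⟨d, hd⟩ : ∃ d : ℤ, d = α * ((w.1 : ℤ) - w.2) := ⟨_, rfl⟩
    have hd0 : d ≠ 0 := by
      rw [hd]
      refine mul_ne_zero hα0 (sub_ne_zero.mpr ?_)
      exact_mod_cast hne
    have hQm : ∀ x ∈ Q, x.1 ∈ F ∧ x.2 ∈ F ∧ coord x.1 k = coord x.2 k ∧ coord x.1 j = w.1 ∧
        coord x.2 j = w.2 := by
      intro x hx
      rw [hQ, mem_filter, mem_product] at hx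
      exact ⟨hx.1.1, hx.1.2, hx.2⟩
    have hmaps : Set.MapsTo (fun x : (ℕ × ℕ) × (ℕ × ℕ) => (r1 (coord x.1 i), r1 (coord x.2 i)))
        (Q : Set _) ((A ×ˢ A : Finset (ℕ × ℕ)) : Set (ℕ × ℕ)) := by
      intro x hx
      obtain ⟨h1, h2, -⟩ := hQm x (Finset.mem_coe.1 hx)
      refine Finset.mem_coe.2 (mem_product.2 ⟨?_, ?_⟩)
      · rw [hA]; exact mem_image_of_mem (fun v => r1 (coord v i)) h1
      · rw [hA]; exact mem_image_of_mem (fun v => r1 (coord v i)) h2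
    have hfib : ∀ a ∈ A ×ˢ A, (((Q.filter (fun x : (ℕ × ℕ) × (ℕ × ℕ) =>
        (r1 (coord x.1 i), r1 (coord x.2 i)) = a)).card : ℕ) : ℝ) ≤ C3 * X ^ ε3 := by
      rintro ⟨a, a'⟩ -
      by_cases hne' : (Q.filter (fun x : (ℕ × ℕ) × (ℕ × ℕ) =>
        (r1 (coord x.1 i), r1 (coord x.2 i)) = (a, a'))).Nonempty
      swap
      · rw [Finset.not_nonempty_iff_eq_empty.1 hne', card_empty, Nat.cast_zero]
        positivity
      obtain ⟨x0, hx0⟩ := hne'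
      rw [mem_filter, Prod.mk.injEq] at hx0
      obtain ⟨hx0, ha, ha'⟩ := hx0
      obtain ⟨f1, f2, -⟩ := hQm x0 hx0
      have hsm : ∀ v ∈ F, ∀ b, r1 (coord v i) = b → 0 < q * b ∧ q * b ≤ H := by
        intro v hv b hb
        obtain ⟨d1, d2, d3, -⟩ := hdec v hv
        rw [hb] at d1 d2
        refine ⟨Nat.mul_pos hq d2, le_trans ?_ (hle v hv)⟩
        conv_rhs => rw [d1]
        exact Nat.le_mul_of_pos_right _ (pow_pos d3 h)
      have g1 := hsm _ f1 a ha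
      have g2 := hsm _ f2 a' ha'
      have hth := hTh H (q * a) (q * a') d hH1 g1.1 g1.2 g2.1 g2.2 hd0
      have hinc : (Q.filter (fun x : (ℕ × ℕ) × (ℕ × ℕ) =>
          (r1 (coord x.1 i), r1 (coord x.2 i)) = (a, a'))).card ≤
          ((Icc 1 H ×ˢ Icc 1 H).filter (fun z : ℕ × ℕ => ((q * a : ℕ) : ℤ) * (z.1 : ℤ) ^ h -
            ((q * a' : ℕ) : ℤ) * (z.2 : ℤ) ^ h = d)).card := by
        refine Finset.card_le_card_of_injOn
          (fun x => (W (coord x.1 i), W (coord x.2 i))) ?_ ?_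
        · intro x hx
          have hx' := Finset.mem_coe.1 hx
          rw [mem_filter, Prod.mk.injEq] at hx'
          obtain ⟨hx1, hx2, hx3⟩ := hx'
          obtain ⟨k1, k2, k3, k4, k5⟩ := hQm x hx1
          obtain ⟨d1, d2, d3, -⟩ := hdec _ k1
          obtain ⟨c1, c2, c3, -⟩ := hdec _ k2
          rw [hx2] at d1
          rw [hx3] at c1
          refine Finset.mem_coe.2 ?_
          have hWle : ∀ v ∈ F, W (coord v i) ≤ H := by
            intro v hv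
            obtain ⟨b1, b2, b3, -⟩ := hdec v hv
            refine le_trans ?_ (hle v hv)
            have h5 : W (coord v i) ≤ W (coord v i) ^ h := Nat.le_self_pow (by omega) _
            refine h5.trans ?_
            conv_rhs => rw [b1]
            exact Nat.le_mul_of_pos_left _ (Nat.mul_pos hq b2)
          rw [mem_filter, mem_product, mem_Icc, mem_Icc]
          refine ⟨⟨⟨d3, hWle _ k1⟩, ⟨c3, hWle _ k2⟩⟩, ?_⟩
          have e1 := hco x.1
          have e2 := hco x.2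
          have e3 : (coord x.1 k : ℤ) = coord x.2 k := by exact_mod_cast k3
          have e4 : (coord x.1 i : ℤ) - coord x.2 i = d := by
            rw [e1, e2, e3, k4, k5, hd]; ring
          have e5 : (coord x.1 i : ℤ) = ((q * a : ℕ) : ℤ) * (W (coord x.1 i) : ℤ) ^ h := by
            exact_mod_cast d1
          have e6 : (coord x.2 i : ℤ) = ((q * a' : ℕ) : ℤ) * (W (coord x.2 i) : ℤ) ^ h := by
            exact_mod_cast c1
          show ((q * a : ℕ) : ℤ) * (W (coord x.1 i) : ℤ) ^ h -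
            ((q * a' : ℕ) : ℤ) * (W (coord x.2 i) : ℤ) ^ h = d
          rw [← e5, ← e6, e4]
        · intro x hx y hy hxy
          have hx' := Finset.mem_coe.1 hx
          have hy' := Finset.mem_coe.1 hy
          rw [mem_filter, Prod.mk.injEq] at hx' hy'
          obtain ⟨hx1, hx2, hx3⟩ := hx'
          obtain ⟨hy1, hy2, hy3⟩ := hy'
          obtain ⟨k1, k2, k3, k4, k5⟩ := hQm x hx1
          obtain ⟨l1, l2, l3, l4, l5⟩ := hQm y hy1
          have hw1 : W (coord x.1 i) = W (coord y.1 i) := congrArg Prod.fst hxy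
          have hw2 : W (coord x.2 i) = W (coord y.2 i) := congrArg Prod.snd hxy
          obtain ⟨d1, -⟩ := hdec _ k1
          obtain ⟨c1, -⟩ := hdec _ k2
          obtain ⟨d1', -⟩ := hdec _ l1
          obtain ⟨c1', -⟩ := hdec _ l2
          have hi1 : coord x.1 i = coord y.1 i := by
            rw [d1, d1', hx2, hy2, hw1]
          have hi2 : coord x.2 i = coord y.2 i := by
            rw [c1, c1', hx3, hy3, hw2]
          have hkk : ∀ u ∈ F, ∀ u' ∈ F, coord u i = coord u' i → coord u j = coord u' j → u = u' := by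
            intro u _ u' _ m1 m2
            refine hinj u u' m2 ?_
            have n1 := hco u
            have n2 := hco u'
            have n3 : β * ((coord u k : ℤ) - coord u' k) = 0 := by
              have n4 : (coord u i : ℤ) = coord u' i := by exact_mod_cast m1
              have n5 : (coord u j : ℤ) = coord u' j := by exact_mod_cast m2
              rw [n5] at n1
              linarith
            rcases mul_eq_zero.mp n3 with h | h
            · exact absurd h hβ0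
            · have : (coord u k : ℤ) = coord u' k := by linarith
              exact_mod_cast this
          exact Prod.ext (hkk _ k1 _ l1 hi1 (by rw [k4, l4])) (hkk _ k2 _ l2 hi2 (by rw [k5, l5]))
      refine le_trans (by exact_mod_cast hinc) (hth.trans ?_)
      refine mul_le_mul_of_nonneg_left ?_ (by linarith)
      calc (H : ℝ) ^ (ε3 / κ) ≤ (X ^ κ) ^ (ε3 / κ) :=
            Real.rpow_le_rpow (Nat.cast_nonneg _) hHX (by positivity)
        _ = X ^ ε3 := by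
            rw [← Real.rpow_mul hX0.le]
            congr 1
            field_simp
    rw [Finset.card_eq_sum_card_fiberwise hmaps]
    push_cast
    calc ∑ a ∈ A ×ˢ A, ((Q.filter (fun x : (ℕ × ℕ) × (ℕ × ℕ) =>
        (r1 (coord x.1 i), r1 (coord x.2 i)) = a)).card : ℝ) ≤ ∑ _a ∈ A ×ˢ A, C3 * X ^ ε3 :=
          Finset.sum_le_sum hfib
      _ = D := by rw [Finset.sum_const, nsmul_eq_mul, Finset.card_product, Nat.cast_mul, hD]
  -- conclusion
  have hDc : D ≤ C1 * C1 * C3 * X ^ (2 * (ε1 + τ + ∑ e ∈ (Icc 1 J \ E) \ K, p i e) + ε3) := by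
    have h0 : (A.card : ℝ) ≤ C1 * X ^ (ε1 + τ + ∑ e ∈ (Icc 1 J \ E) \ K, p i e) := by
      refine hAc.trans (le_of_eq ?_)
      rw [mul_assoc, ← Real.rpow_add hX0, add_assoc]
    rw [hD]
    calc (A.card : ℝ) * A.card * (C3 * X ^ ε3) ≤
        (C1 * X ^ (ε1 + τ + ∑ e ∈ (Icc 1 J \ E) \ K, p i e)) *
        (C1 * X ^ (ε1 + τ + ∑ e ∈ (Icc 1 J \ E) \ K, p i e)) * (C3 * X ^ ε3) := by
          refine mul_le_mul_of_nonneg_right ?_ (by positivity)
          exact mul_le_mul h0 h0 (Nat.cast_nonneg _) (by positivity)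
      _ = _ := by
          have key : ∀ a b : ℝ, (C1 * X ^ a) * (C1 * X ^ a) * (C3 * X ^ b) =
              C1 * C1 * C3 * X ^ (2 * a + b) := by
            intro a b
            rw [Real.rpow_add hX0, two_mul, Real.rpow_add hX0]
            ring
          rw [key]
  refine quad hgr hBc (by positivity) (by positivity) (by positivity) ?_
  have h1 : (C1 * X ^ (ε1 + τ + ∑ e ∈ Icc 1 J, p k e)) * (P.card * D) ≤
      (C1 * X ^ (ε1 + τ + ∑ e ∈ Icc 1 J, p k e)) *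
      ((C4 * X ^ (ε4 + 2 * τ + 2 * (∑ e ∈ Icc 1 J, p j e) - V)) *
      (C1 * C1 * C3 * X ^ (2 * (ε1 + τ + ∑ e ∈ (Icc 1 J \ E) \ K, p i e) + ε3))) := by
    refine mul_le_mul_of_nonneg_left ?_ (by positivity)
    exact mul_le_mul hPc hDc hD0 (by positivity)
  refine h1.trans ?_
  have key : ∀ a b c : ℝ, (C1 * X ^ a) * ((C4 * X ^ b) * (C1 * C1 * C3 * X ^ c)) ≤
      (C1 * C1 * C3 * C4 * X ^ ((a + b + c) / 2)) ^ 2 := by
    intro a b c
    have hsq : (X ^ ((a + b + c) / 2)) ^ 2 = X ^ (a + b + c) := by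
      rw [← Real.rpow_natCast (X ^ _) 2, ← Real.rpow_mul hX0.le]
      congr 1
      push_cast
      ring
    rw [mul_pow, hsq, Real.rpow_add hX0, Real.rpow_add hX0]
    have hP0 : 0 ≤ X ^ a * X ^ b * X ^ c := by positivity
    have h2 : C1 * C1 * C1 * C3 * C4 ≤ (C1 * C1 * C3 * C4) ^ 2 := by
      have m1 : 1 ≤ C1 * C3 * C4 := one_le_mul_of_one_le_of_one_le
        (one_le_mul_of_one_le_of_one_le hC1 hC3) hC4
      have m2 : 0 ≤ C1 * C1 * C1 * C3 * C4 := by positivity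
      calc C1 * C1 * C1 * C3 * C4 ≤ C1 * C1 * C1 * C3 * C4 * (C1 * C3 * C4) :=
            le_mul_of_one_le_right m2 m1
        _ = (C1 * C1 * C3 * C4) ^ 2 := by ring
    calc C1 * X ^ a * (C4 * X ^ b * (C1 * C1 * C3 * X ^ c)) =
        C1 * C1 * C1 * C3 * C4 * (X ^ a * X ^ b * X ^ c) := by ring
      _ ≤ (C1 * C1 * C3 * C4) ^ 2 * (X ^ a * X ^ b * X ^ c) := mul_le_mul_of_nonneg_right h2 hP0
  exact key _ _ _

theorem kst_thm (hE : S_ENQ) (hL : S_LAY) (hC : Pool.RIC.S_CNT) : S_KST := by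
  classical
  intro J S κ ε hκ hε
  obtain ⟨C1, hC1, hT⟩ := hC κ (ε / 8) (by linarith) (by linarith)
  obtain ⟨C4, hC4, hEn⟩ := hE J S κ (ε / 8) hκ (by linarith)
  -- one constant for all `h ∈ Icc 2 J`
  have hth : ∃ C3 : ℝ, 1 ≤ C3 ∧ ∀ h ∈ Icc 2 J, ∀ (H r s : ℕ) (m : ℤ), 1 ≤ H → 0 < r → r ≤ H →
      0 < s → s ≤ H → m ≠ 0 →
      (((Icc 1 H ×ˢ Icc 1 H).filter
        (fun z : ℕ × ℕ => (r : ℤ) * (z.1 : ℤ) ^ h - s * (z.2 : ℤ) ^ h = m)).card : ℝ) ≤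
      C3 * (H : ℝ) ^ (ε / 8 / κ) := by
    have hex : ∀ h : ℕ, ∃ C : ℝ, 1 ≤ C ∧ (2 ≤ h → ∀ (H r s : ℕ) (m : ℤ), 1 ≤ H → 0 < r → r ≤ H →
      0 < s → s ≤ H → m ≠ 0 →
      (((Icc 1 H ×ˢ Icc 1 H).filter
        (fun z : ℕ × ℕ => (r : ℤ) * (z.1 : ℤ) ^ h - s * (z.2 : ℤ) ^ h = m)).card : ℝ) ≤
      C * (H : ℝ) ^ (ε / 8 / κ)) := by
      intro h
      by_cases h2 : 2 ≤ h
      · obtain ⟨C, hC, hc⟩ := Pool.THU.thu h h2 (ε / 8 / κ) (by positivity)
        exact ⟨C, hC, fun _ => hc⟩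
      · exact ⟨1, le_rfl, fun h3 => absurd h3 h2⟩
    choose Cf hCf hcf using hex
    refine ⟨1 + ∑ h ∈ Icc 2 J, Cf h, ?_, ?_⟩
    · have : 0 ≤ ∑ h ∈ Icc 2 J, Cf h := Finset.sum_nonneg fun h _ => by linarith [hCf h]
      linarith
    · intro h hh H r s m a1 a2 a3 a4 a5 a6
      refine (hcf h (mem_Icc.mp hh).1 H r s m a1 a2 a3 a4 a5 a6).trans ?_
      refine mul_le_mul_of_nonneg_right ?_ (by positivity)
      have : Cf h ≤ ∑ h ∈ Icc 2 J, Cf h :=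
        Finset.single_le_sum (fun h _ => by linarith [hCf h]) hh
      linarith
  obtain ⟨C3, hC3, hTh⟩ := hth
  refine ⟨C1 * (C1 + C1 * C1 * C3 * C4), ?_, ?_⟩
  · have : 0 ≤ C1 * C1 * C3 * C4 := by positivity
    exact one_le_mul_of_one_le_of_one_le hC1 (by linarith)
  intro X τ g V F i j k K E h p hX hτ hg hij hik hjk hE1 hK hh hhE hp hV hF
  have hX0 : (0 : ℝ) < X := by linarith
  have hKI : K ⊆ Icc 1 J := fun e he => (mem_sdiff.mp (hK he)).1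
  set T : Finset ℕ := F.image (fun v => kp J K (coord v i)) with hTdef
  have hkp : ∀ v ∈ F, kp J K (coord v i) ∣ coord v i ∧ 0 < kp J K (coord v i) ∧
      (kp J K (coord v i) : ℝ) ≤ X ^ κ ∧
      (rad (kp J K (coord v i)) : ℝ) ≤ X ^ (τ + ∑ e ∈ K, p i e) := by
    intro v hv
    obtain ⟨T1, H, P, -⟩ := hF v hv
    have hpos := coord_pos T1 i
    obtain ⟨-, -, -, hd, -⟩ := hL J (coord v i) hpos
    obtain ⟨hd1, hd2⟩ := hd K hKI
    have hle : kp J K (coord v i) ≤ coord v i := Nat.le_of_dvd hpos hd1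
    refine ⟨hd1, Nat.pos_of_dvd_of_pos hd1 hpos, ?_, ?_⟩
    · exact le_trans (by exact_mod_cast hle) (CTL71.size hX T1 H i)
    · rw [hd2, Nat.cast_mul, Nat.cast_prod, Real.rpow_add hX0, Real.rpow_sum_of_pos hX0]
      refine mul_le_mul (P i).1 ?_ (Finset.prod_nonneg fun e _ => Nat.cast_nonneg _) (by positivity)
      exact Finset.prod_le_prod (fun e _ => Nat.cast_nonneg _) fun e he => (P i).2 e (hKI he)
  have hTc : (T.card : ℝ) ≤ C1 * X ^ (ε / 8) * X ^ (τ + ∑ e ∈ K, p i e) := by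
    refine hT X (X ^ (τ + ∑ e ∈ K, p i e)) T hX (Real.one_le_rpow hX ?_) ?_
    · exact add_nonneg hτ (Finset.sum_nonneg fun e _ => (hp i e).1)
    intro n hn
    obtain ⟨v, hv, rfl⟩ := Finset.mem_image.mp hn
    exact ⟨(hkp v hv).2.1, (hkp v hv).2.2.1, (hkp v hv).2.2.2⟩
  have hmaps : Set.MapsTo (fun v => kp J K (coord v i)) (F : Set (ℕ × ℕ)) T := by
    intro v hv
    exact Finset.mem_coe.2 (Finset.mem_image_of_mem _ (Finset.mem_coe.1 hv))
  set b : ℝ := C1 * X ^ (ε / 8 + τ + ∑ e ∈ Icc 1 J, p k e) +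
      C1 * C1 * C3 * C4 * X ^ ((ε / 8 + τ + ∑ e ∈ Icc 1 J, p k e + (ε / 8 + 2 * τ +
        2 * (∑ e ∈ Icc 1 J, p j e) - V) +
        (2 * (ε / 8 + τ + ∑ e ∈ (Icc 1 J \ E) \ K, p i e) + ε / 8)) / 2) with hb
  have hb0 : 0 ≤ b := by rw [hb]; positivity
  have hfib : ∀ q ∈ T, (((F.filter (fun v => kp J K (coord v i) = q)).card : ℕ) : ℝ) ≤ b := by
    intro q hq
    obtain ⟨v0, hv0, rfl⟩ := Finset.mem_image.mp hq
    refine fibq (by linarith) hC1 hC3 hC4 (by linarith) hL hT (hTh h hh) hEn hX hτ hg i j k hij hik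
      hjk _ K E hE1 hK hhE p hp hV (hkp v0 hv0).2.1 (hF v0 hv0).2.2.2 (hkp v0 hv0).2.2.1
      (by have := (mem_Icc.mp hh).1; omega) _ fun v hv => ?_
    rw [Finset.mem_filter] at hv
    obtain ⟨T1, H, P, -⟩ := hF v hv.1
    exact ⟨T1, H, P, hv.2⟩
  have hsum : (F.card : ℝ) ≤ T.card * b := by
    rw [Finset.card_eq_sum_card_fiberwise hmaps]
    push_cast
    calc ∑ q ∈ T, ((F.filter (fun v => kp J K (coord v i) = q)).card : ℝ)
        ≤ ∑ _q ∈ T, b := Finset.sum_le_sum hfib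
      _ = _ := by rw [Finset.sum_const, nsmul_eq_mul]
  refine hsum.trans ((mul_le_mul_of_nonneg_right hTc hb0).trans ?_)
  obtain ⟨M, hM⟩ : ∃ M : ℝ, M = max (∑ e ∈ K, p i e + ∑ e ∈ Icc 1 J, p k e)
    (∑ e ∈ Icc 1 J \ E, p i e + (∑ e ∈ Icc 1 J, p j e - V / 2) + (∑ e ∈ Icc 1 J, p k e) / 2) :=
    ⟨_, rfl⟩
  rw [← hM]
  have hM1 : ∑ e ∈ K, p i e + ∑ e ∈ Icc 1 J, p k e ≤ M := by rw [hM]; exact le_max_left _ _
  have hM2 : ∑ e ∈ Icc 1 J \ E, p i e + (∑ e ∈ Icc 1 J, p j e - V / 2) +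
      (∑ e ∈ Icc 1 J, p k e) / 2 ≤ M := by rw [hM]; exact le_max_right _ _
  have hsd : ∑ e ∈ Icc 1 J \ E, p i e = ∑ e ∈ (Icc 1 J \ E) \ K, p i e + ∑ e ∈ K, p i e :=
    (Finset.sum_sdiff hK).symm
  have e1 : C1 * X ^ (ε / 8) * X ^ (τ + ∑ e ∈ K, p i e) *
      (C1 * X ^ (ε / 8 + τ + ∑ e ∈ Icc 1 J, p k e)) ≤ C1 * C1 * X ^ (ε + 4 * τ + M) := by
    have key : ∀ a b c : ℝ, C1 * X ^ a * X ^ b * (C1 * X ^ c) = C1 * C1 * X ^ (a + b + c) := by
      intro a b c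
      rw [Real.rpow_add hX0, Real.rpow_add hX0]
      ring
    rw [key]
    exact mul_le_mul_of_nonneg_left (Real.rpow_le_rpow_of_exponent_le hX (by linarith))
      (by positivity)
  have e2 : C1 * X ^ (ε / 8) * X ^ (τ + ∑ e ∈ K, p i e) *
      (C1 * C1 * C3 * C4 * X ^ ((ε / 8 + τ + ∑ e ∈ Icc 1 J, p k e + (ε / 8 + 2 * τ +
        2 * (∑ e ∈ Icc 1 J, p j e) - V) +
        (2 * (ε / 8 + τ + ∑ e ∈ (Icc 1 J \ E) \ K, p i e) + ε / 8)) / 2)) ≤
      C1 * (C1 * C1 * C3 * C4) * X ^ (ε + 4 * τ + M) := by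
    have key : ∀ a b c : ℝ, C1 * X ^ a * X ^ b * (C1 * C1 * C3 * C4 * X ^ c) =
        C1 * (C1 * C1 * C3 * C4) * X ^ (a + b + c) := by
      intro a b c
      rw [Real.rpow_add hX0, Real.rpow_add hX0]
      ring
    rw [key]
    exact mul_le_mul_of_nonneg_left (Real.rpow_le_rpow_of_exponent_le hX (by linarith))
      (by positivity)
  rw [hb, mul_add]
  calc _ ≤ C1 * C1 * X ^ (ε + 4 * τ + M) + C1 * (C1 * C1 * C3 * C4) * X ^ (ε + 4 * τ + M) :=
        add_le_add e1 e2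
    _ = C1 * (C1 + C1 * C1 * C3 * C4) * X ^ (ε + 4 * τ + M) := by ring

end Pool.KST
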